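import Pool.Agent.Helper42.FR.Stmts

set_option autoImplicit false

namespace Pool.Agent.Helper64.FR

open Pool.Agent.Helper42.FR

/-- the pieces -/
abbrev Tt (k q : ℕ) := (Fin k × Fin q) ⊕ ((Fin k × Fin q) ⊕ ((Fin k × Fin q) ⊕
  ((Fin k × Fin q) ⊕ ((Fin k × Fin k) ⊕ Unit))))

/-- number of the piece -/
def cl {k q : ℕ} : Tt k q → ℕ
  | Sum.inl _ => 0
  | Sum.inr (Sum.inl _) => 1
  | Sum.inr (Sum.inr (Sum.inl _)) => 2
  | Sum.inr (Sum.inr (Sum.inr (Sum.inl _))) => 3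
  | Sum.inr (Sum.inr (Sum.inr (Sum.inr (Sum.inl _)))) => 4
  | Sum.inr (Sum.inr (Sum.inr (Sum.inr (Sum.inr _)))) => 5

/-- the map -/
def mv {k q : ℕ} (hk : k ≤ q) : Tt k q → Tt k q
  | Sum.inl x => Sum.inr (Sum.inl x)
  | Sum.inr (Sum.inl x) => Sum.inr (Sum.inr (Sum.inl x))
  | Sum.inr (Sum.inr (Sum.inl x)) => Sum.inr (Sum.inr (Sum.inr (Sum.inl x)))
  | Sum.inr (Sum.inr (Sum.inr (Sum.inl x))) =>
    if h : (x.2 : ℕ) < k then Sum.inr (Sum.inr (Sum.inr (Sum.inr (Sum.inl (x.1, ⟨x.2, h⟩)))))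
    else Sum.inl x
  | Sum.inr (Sum.inr (Sum.inr (Sum.inr (Sum.inl x)))) => Sum.inl (x.1, Fin.castLE hk x.2)
  | Sum.inr (Sum.inr (Sum.inr (Sum.inr (Sum.inr x)))) =>
    Sum.inr (Sum.inr (Sum.inr (Sum.inr (Sum.inr x))))

/-- its inverse -/
def mi {k q : ℕ} (hk : k ≤ q) : Tt k q → Tt k q
  | Sum.inl x =>
    if h : (x.2 : ℕ) < k then Sum.inr (Sum.inr (Sum.inr (Sum.inr (Sum.inl (x.1, ⟨x.2, h⟩)))))
    else Sum.inr (Sum.inr (Sum.inr (Sum.inl x)))
  | Sum.inr (Sum.inl x) => Sum.inl x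
  | Sum.inr (Sum.inr (Sum.inl x)) => Sum.inr (Sum.inl x)
  | Sum.inr (Sum.inr (Sum.inr (Sum.inl x))) => Sum.inr (Sum.inr (Sum.inl x))
  | Sum.inr (Sum.inr (Sum.inr (Sum.inr (Sum.inl x)))) =>
    Sum.inr (Sum.inr (Sum.inr (Sum.inl (x.1, Fin.castLE hk x.2))))
  | Sum.inr (Sum.inr (Sum.inr (Sum.inr (Sum.inr x)))) =>
    Sum.inr (Sum.inr (Sum.inr (Sum.inr (Sum.inr x))))

theorem mi_mv {k q : ℕ} (hk : k ≤ q) (t : Tt k q) : mi hk (mv hk t) = t := by
  rcases t with x | x | x | ⟨a, b⟩ | ⟨a, b⟩ | x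
  · rfl
  · rfl
  · rfl
  · by_cases h : (b : ℕ) < k
    · simp [mv, mi, h]
    · simp [mv, mi, h]
  · simp [mv, mi]
  · rfl

theorem st_HH : ST_HH := by
  intro q k hk hq
  classical
  set e0 : {y : Fin q × Fin q // (y.1 : ℕ) < k} ≃ Fin k × Fin q :=
    { toFun := fun y => (⟨y.1.1, y.2⟩, y.1.2)
      invFun := fun x => ⟨(Fin.castLE hk x.1, x.2), x.1.2⟩
      left_inv := fun y => rfl
      right_inv := fun x => rfl } with he0
  have hc0 : Fintype.card {y : Fin q × Fin q // (y.1 : ℕ) < k} = k * q := by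
    rw [Fintype.card_congr e0]
    simp
  have hc1 : Fintype.card {y : Fin q × Fin q // ¬ (y.1 : ℕ) < k} =
      Fintype.card ((Fin k × Fin q) ⊕ ((Fin k × Fin q) ⊕
        ((Fin k × Fin q) ⊕ ((Fin k × Fin k) ⊕ Unit)))) := by
    rw [Fintype.card_subtype_compl, hc0]
    simp only [Fintype.card_sum, Fintype.card_prod, Fintype.card_fin, Fintype.card_unit]
    have : 4 * (k * q) + k * k + 1 = q * q := by rw [← hq]; ring
    omega
  set e1 := Fintype.equivOfCardEq hc1 with he1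
  set Φ : Fin q × Fin q ≃ Tt k q :=
    (Equiv.sumCompl (fun y : Fin q × Fin q => (y.1 : ℕ) < k)).symm.trans
      (Equiv.sumCongr e0 e1) with hΦ
  have hpos : ∀ (y : Fin q × Fin q) (h : (y.1 : ℕ) < k),
      Φ y = Sum.inl ((⟨y.1, h⟩, y.2) : Fin k × Fin q) := by
    intro y h
    have e := Equiv.sumCompl_symm_apply_of_pos (p := fun y : Fin q × Fin q => (y.1 : ℕ) < k)
      (a := y) h
    rw [hΦ, Equiv.trans_apply, e]
    rfl
  have hneg : ∀ (y : Fin q × Fin q) (h : ¬ (y.1 : ℕ) < k), ∃ r, Φ y = Sum.inr r := by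
    intro y h
    have e := Equiv.sumCompl_symm_apply_of_neg (p := fun y : Fin q × Fin q => (y.1 : ℕ) < k)
      (a := y) h
    rw [hΦ, Equiv.trans_apply, e]
    exact ⟨_, rfl⟩
  set Hm : Equiv.Perm (Tt k q) := Equiv.ofBijective (mv hk)
    (Finite.injective_iff_bijective.1 (Function.LeftInverse.injective (mi_mv hk))) with hHm
  have hHa : ∀ t, Hm t = mv hk t := fun t => rfl
  set H : Equiv.Perm (Fin q × Fin q) := (Φ.trans Hm).trans Φ.symm with hH
  have hHy : ∀ y, Φ (H y) = mv hk (Φ y) := by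
    intro y
    rw [hH]
    simp [hHa]
  set A : Fin 5 → Finset (Fin q × Fin q) := fun i =>
    Finset.univ.filter (fun y => cl (Φ y) = (i : ℕ)) with hA
  have hmem : ∀ (i : Fin 5) y, y ∈ A i ↔ cl (Φ y) = (i : ℕ) := by
    intro i y
    rw [hA]
    simp
  refine ⟨H, A, ?_, ?_, ?_, ?_, ?_, ?_, ?_⟩
  · intro y
    rw [hmem]
    by_cases h : (y.1 : ℕ) < k
    · rw [hpos y h]
      simp [cl, h]
    · obtain ⟨r, hr⟩ := hneg y h
      rw [hr]
      rcases r with x | x | x | x | x <;> simp [cl, h]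
  · intro y
    rw [hmem, hmem, hHy]
    generalize Φ y = t
    rcases t with x | x | x | x | x | x
    · simp [cl, mv]
    · simp [cl, mv]
    · simp [cl, mv]
    · by_cases h : (x.2 : ℕ) < k <;> simp [cl, mv, h]
    · simp [cl, mv]
    · simp [cl, mv]
  · intro y
    rw [hmem, hmem, hHy]
    generalize Φ y = t
    rcases t with x | x | x | x | x | x
    · simp [cl, mv]
    · simp [cl, mv]
    · simp [cl, mv]
    · by_cases h : (x.2 : ℕ) < k <;> simp [cl, mv, h]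
    · simp [cl, mv]
    · simp [cl, mv]
  · intro y
    rw [hmem, hmem, hHy]
    generalize Φ y = t
    rcases t with x | x | x | x | x | x
    · simp [cl, mv]
    · simp [cl, mv]
    · simp [cl, mv]
    · by_cases h : (x.2 : ℕ) < k <;> simp [cl, mv, h]
    · simp [cl, mv]
    · simp [cl, mv]
  · intro y
    rw [hmem, hHy, hHy, hHy, hHy]
    by_cases h : (y.1 : ℕ) < k
    · rw [hpos y h]
      by_cases h2 : (y.2 : ℕ) < k <;> simp [cl, mv, h, h2]
    · obtain ⟨r, hr⟩ := hneg y h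
      rw [hr]
      rcases r with x | x | x | x | x
      · by_cases h2 : (x.2 : ℕ) < k <;> simp [cl, mv, h, h2]
      · by_cases h2 : (x.2 : ℕ) < k <;> simp [cl, mv, h, h2]
      · by_cases h2 : (x.2 : ℕ) < k <;> simp [cl, mv, h, h2]
      · simp [cl, mv, h]
      · simp [cl, mv, h]
  · intro i j hij
    rw [Finset.disjoint_left]
    intro y hy hy'
    rw [hmem] at hy hy'
    exact hij (Fin.ext (hy.symm.trans hy'))
  · have hsub : Finset.univ \ (Finset.univ.biUnion A) ⊆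
        {Φ.symm (Sum.inr (Sum.inr (Sum.inr (Sum.inr (Sum.inr ())))))} := by
      intro y hy
      rw [Finset.mem_singleton]
      rw [Finset.mem_sdiff] at hy
      have hy2 : ∀ i : Fin 5, cl (Φ y) ≠ (i : ℕ) := by
        intro i hi
        exact hy.2 (Finset.mem_biUnion.2 ⟨i, Finset.mem_univ _, (hmem i y).2 hi⟩)
      rw [Equiv.eq_symm_apply]
      have h0 := hy2 0
      have h1 := hy2 1
      have h2 := hy2 2
      have h3 := hy2 3
      have h4 := hy2 4
      revert h0 h1 h2 h3 h4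
      generalize Φ y = t
      intro h0 h1 h2 h3 h4
      rcases t with x | x | x | x | x | x
      · exact absurd rfl h0
      · exact absurd rfl h1
      · exact absurd rfl h2
      · exact absurd rfl h3
      · exact absurd rfl h4
      · rfl
    exact (Finset.card_le_card hsub).trans (by simp)

end Pool.Agent.Helper64.FR
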